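import Pool.Agent.H61.HB.Stmts5

set_option autoImplicit false

namespace HB

theorem cb3_thm (hST3 : ST3Stmt) (hLG3 : LG3Stmt) (hGLB : GLBStmt) (hGR3 : GR3Stmt)
    (hGC3 : GC3Stmt) (hMMB : MMBStmt) : CB3Stmt := by
  obtain ⟨C₁, c₁, hC₁, hc₁, hS⟩ := hST3
  obtain ⟨C₂, hC₂, hG⟩ := hLG3
  refine ⟨C₁, c₁, hC₁, hc₁, ?_⟩
  intro ν s L u v₀ hν hs hL hu hint hmem hreal hsm
  have hflu : ∀ w : V, 0 ≤ flu w := by
    intro w
    unfold flu flS
    exact Finset.sum_nonneg fun j _ => tsum_nonneg fun k => by positivity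
  have hsq : ∀ k : Z2, 0 ≤ sq k := by
    intro k
    unfold sq
    positivity
  have hY : 0 ≤ hn (v₀ - u 0) + mu (v₀ - u 0) := by
    unfold hn mu hnS
    refine add_nonneg (Finset.sum_nonneg fun j _ => tsum_nonneg fun k => ?_)
      (Finset.sum_nonneg fun j _ => by positivity)
    exact div_nonneg (by positivity) (mul_nonneg (hsq k) (Real.sqrt_nonneg _))
  obtain ⟨M₁, hM₁⟩ : ∃ M₁ : ℝ, M₁ = (hn (v₀ - u 0) + mu (v₀ - u 0)) * Real.exp (2 * (C₁ * L)) / ν :=
    ⟨_, rfl⟩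
  have hM₁0 : 0 ≤ M₁ := by
    rw [hM₁]
    exact div_nonneg (mul_nonneg hY (Real.exp_pos _).le) hν.le
  obtain ⟨M₂, hM₂⟩ : ∃ M₂ : ℝ, M₂ = 2 * M₁ + 2 * (ν * L) := ⟨_, rfl⟩
  -- the bound for the `H^(1/2)` norm
  have key : ∀ (T : ℝ) (v : ℝ → V), 0 ≤ T → Sol ν s T v → v 0 = v₀ →
      (∀ t ∈ Set.Icc 0 T, Rl (v t)) → ∫ r in (0 : ℝ)..T, hp (v r) ≤ M₂ := by
    intro T v hT hv hv0 hr
    have h1 := hS ν s T (C₁ * L) u v hν hs hT (hu T hT).1 hv
      (fun t ht => ⟨(hu T hT).2 t ht, hr t ht⟩)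
      (mul_le_mul_of_nonneg_left (hint T hT) hC₁.le) (by rw [hv0]; exact hsm)
    rw [hv0, ← hM₁] at h1
    obtain ⟨-, g2, -, -, -, g6⟩ := hGC3 ν s T u v hs (hu T hT).1 hv
    obtain ⟨-, g2', -, -, -, -⟩ := hGC3 ν s T v v hs hv hv
    have i1 : IntervalIntegrable (fun r => hp (u r)) MeasureTheory.volume 0 T :=
      ContinuousOn.intervalIntegrable (by rw [Set.uIcc_of_le hT]; exact g2)
    have i2 : IntervalIntegrable (fun r => hp (v r - u r)) MeasureTheory.volume 0 T :=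
      ContinuousOn.intervalIntegrable (by rw [Set.uIcc_of_le hT]; exact g6)
    have i3 : IntervalIntegrable (fun r => hp (v r)) MeasureTheory.volume 0 T :=
      ContinuousOn.intervalIntegrable (by rw [Set.uIcc_of_le hT]; exact g2')
    have h2 : ∫ r in (0 : ℝ)..T, hp (u r) / ν ≤ L := hint T hT
    rw [intervalIntegral.integral_div, div_le_iff₀ hν] at h2
    have h3 : ∫ r in (0 : ℝ)..T, hp (v r) ≤
        ∫ r in (0 : ℝ)..T, (2 * hp (v r - u r) + 2 * hp (u r)) := by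
      refine intervalIntegral.integral_mono_on hT i3 ((i2.const_mul 2).add (i1.const_mul 2))
        fun r hr' => ?_
      exact hGR3.2.2 (u r) (v r)
        (hMMB.2.2.2.2.1 2 s (u r) hs ((hu T hT).1.cts.1 r hr')).1
        (hMMB.2.2.2.2.1 2 s (v r) hs (hv.cts.1 r hr')).1
    rw [intervalIntegral.integral_add (i2.const_mul 2) (i1.const_mul 2),
      intervalIntegral.integral_const_mul, intervalIntegral.integral_const_mul] at h3
    rw [hM₂]
    linarith
  have hCν : 0 ≤ C₂ / ν := div_nonneg hC₂.le hν.le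
  obtain ⟨v, hv0, hv⟩ := hGLB ν s (flu v₀ / ν * Real.exp (2 * (C₂ / ν * M₂))) v₀ hν hs
    (mul_nonneg (div_nonneg (hflu v₀) hν.le) (Real.exp_pos _).le) hmem hreal (by
    intro T w hT hw hw0 hr _
    have h1 := (hG ν s T w hν hs hT hw hr T ⟨hT, le_refl T⟩).2
    rw [hw0] at h1
    refine h1.trans (mul_le_mul_of_nonneg_left ?_ (div_nonneg (hflu v₀) hν.le))
    refine Real.exp_le_exp.2 ?_
    have h2 := mul_le_mul_of_nonneg_left (key T w hT hw hw0 hr) hCν
    linarith)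
  refine ⟨v, hv0, fun T hT => ⟨(hv T hT).1, (hv T hT).2.2⟩, ?_⟩
  have hb : ∀ t : ℝ, 0 ≤ t → flu (v t) ≤ flu v₀ * Real.exp (-ν * t + C₂ / ν * M₂) := by
    intro t ht
    have h1 := (hG ν s t v hν hs ht (hv t ht).1.sol (hv t ht).1.real t ⟨ht, le_refl t⟩).1
    rw [hv0] at h1
    refine h1.trans (mul_le_mul_of_nonneg_left ?_ (hflu v₀))
    refine Real.exp_le_exp.2 ?_
    have h2 := mul_le_mul_of_nonneg_left (key t v ht (hv t ht).1.sol hv0 (hv t ht).1.real) hCν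
    linarith
  have hlim : Filter.Tendsto (fun t : ℝ => flu v₀ * Real.exp (-ν * t + C₂ / ν * M₂))
      Filter.atTop (nhds 0) := by
    have h1 : Filter.Tendsto (fun t : ℝ => -ν * t) Filter.atTop Filter.atBot :=
      Filter.tendsto_id.const_mul_atTop_of_neg (by linarith)
    have h2 : Filter.Tendsto (fun t : ℝ => -ν * t + C₂ / ν * M₂) Filter.atTop Filter.atBot :=
      Filter.tendsto_atBot_add_const_right _ _ h1
    have h3 := Real.tendsto_exp_atBot.comp h2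
    simpa using h3.const_mul (flu v₀)
  refine squeeze_zero' (Filter.Eventually.of_forall fun t => hflu (v t)) ?_ hlim
  filter_upwards [Filter.eventually_ge_atTop (0 : ℝ)] with t ht
  exact hb t ht

end HB
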