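import Pool.Agent.H61.HB.Stmts

/-! Board hbg, row ISO. -/

set_option autoImplicit false

namespace HB

theorem iso_pos (k : Z2) : 0 < 1 + sq k := by
  unfold sq
  positivity

theorem iso_norm (s : ℝ) (f : E) (j : Fin 2) (k : Z2) :
    (1 + sq k) ^ s * ‖toV s f j k‖ ^ 2 = ‖f (j, k)‖ ^ 2 := by
  have h := iso_pos k
  have h1 : ‖toV s f j k‖ = (1 + sq k) ^ (-(s / 2)) * ‖f (j, k)‖ := by
    unfold toV
    rw [norm_mul, Complex.norm_real, Real.norm_eq_abs, abs_of_pos (Real.rpow_pos_of_pos h _)]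
  have h2 : (1 + sq k) ^ s * ((1 + sq k) ^ (-(s / 2))) ^ 2 = 1 := by
    rw [← Real.rpow_natCast ((1 + sq k) ^ (-(s / 2))) 2, ← Real.rpow_mul h.le,
      ← Real.rpow_add h]
    have : s + -(s / 2) * ((2 : ℕ) : ℝ) = 0 := by push_cast; ring
    rw [this, Real.rpow_zero]
  rw [h1, mul_pow, ← mul_assoc, h2, one_mul]

theorem iso_summable (f : E) : Summable fun x : Fin 2 × Z2 => ‖f x‖ ^ 2 := by
  have h := (lp.memℓp f).summable (by norm_num)
  refine h.congr fun x => ?_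
  simp

theorem iso_thm : ISOStmt := by
  intro s
  refine ⟨fun f => ?_, fun u hu => ?_, fun f g => ?_⟩
  · have h := iso_summable f
    have hj : ∀ j : Fin 2, Summable fun k : Z2 => ‖f (j, k)‖ ^ 2 := fun j =>
      h.comp_injective (i := fun k : Z2 => ((j, k) : Fin 2 × Z2))
        (fun a b hab => (Prod.mk.inj hab).2)
    refine ⟨fun j => (hj j).congr fun k => (iso_norm s f j k).symm, ?_⟩
    have h1 : ‖f‖ ^ 2 = ∑' x : Fin 2 × Z2, ‖f x‖ ^ 2 := by
      have := lp.norm_rpow_eq_tsum (p := 2) (by norm_num) f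
      simpa using this
    rw [h1, h.tsum_prod' hj, tsum_fintype]
    unfold nsq nqS
    refine Finset.sum_congr rfl fun j _ => ?_
    exact tsum_congr fun k => iso_norm s f j k
  · let F : Fin 2 × Z2 → ℂ := fun x => (((1 + sq x.2) ^ (s / 2) : ℝ) : ℂ) * u x.1 x.2
    have hF : ∀ x : Fin 2 × Z2, ‖F x‖ ^ 2 = (1 + sq x.2) ^ s * ‖u x.1 x.2‖ ^ 2 := by
      intro x
      have h := iso_pos x.2
      show ‖(((1 + sq x.2) ^ (s / 2) : ℝ) : ℂ) * u x.1 x.2‖ ^ 2 = _
      rw [norm_mul, Complex.norm_real, Real.norm_eq_abs, abs_of_pos (Real.rpow_pos_of_pos h _),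
        mul_pow, ← Real.rpow_natCast ((1 + sq x.2) ^ (s / 2)) 2, ← Real.rpow_mul h.le]
      congr 2
      push_cast
      ring
    have hsum : Summable fun x : Fin 2 × Z2 => ‖F x‖ ^ 2 := by
      rw [summable_prod_of_nonneg (fun x => sq_nonneg _)]
      refine ⟨fun j => ?_, Summable.of_finite⟩
      exact (hu j).congr fun k => (hF (j, k)).symm
    have hm : Memℓp F 2 := by
      apply memℓp_gen
      refine hsum.congr fun x => ?_
      simp
    refine ⟨⟨F, hm⟩, ?_⟩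
    funext j k
    have h := iso_pos k
    show (((1 + sq k) ^ (-(s / 2)) : ℝ) : ℂ) * ((((1 + sq k) ^ (s / 2) : ℝ) : ℂ) * u j k) = u j k
    rw [← mul_assoc, ← Complex.ofReal_mul, ← Real.rpow_add h, neg_add_cancel, Real.rpow_zero,
      Complex.ofReal_one, one_mul]
  · funext j k
    show (((1 + sq k) ^ (-(s / 2)) : ℝ) : ℂ) * (f (j, k) - g (j, k)) =
      (((1 + sq k) ^ (-(s / 2)) : ℝ) : ℂ) * f (j, k) -
        (((1 + sq k) ^ (-(s / 2)) : ℝ) : ℂ) * g (j, k)
    ring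

end HB
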