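import Pool.Agent.H61.HB.Stmts4

/-!
Row ITH of board fnd.
-/

set_option autoImplicit false

namespace HB

theorem ith_int (K c m T : ℝ) (hc : c ≠ 0) :
    ∫ r in (0 : ℝ)..T, K * m * Real.exp (-c * r) = K * m / c * (1 - Real.exp (-c * T)) := by
  have h : ∀ r ∈ Set.uIcc (0 : ℝ) T,
      HasDerivAt (fun r => -(K * m / c) * Real.exp (-c * r)) (K * m * Real.exp (-c * r)) r := by
    intro r _
    have h1 : HasDerivAt (fun r : ℝ => -c * r) (-c) r := by
      simpa using (hasDerivAt_id r).const_mul (-c)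
    have h2 := h1.exp.const_mul (-(K * m / c))
    refine h2.congr_deriv ?_
    field_simp
  rw [intervalIntegral.integral_eq_sub_of_hasDerivAt h]
  · rw [mul_zero, Real.exp_zero]
    ring
  · apply Continuous.intervalIntegrable
    fun_prop

theorem ith_thm : ITHStmt := by
  intro ν K n hν hK hn T hT
  have hn' : (0 : ℝ) < n := by exact_mod_cast hn
  have hc : (0 : ℝ) < ν * (n : ℝ) ^ 8 := by positivity
  have e : ∫ r in (0 : ℝ)..T, K * (n : ℝ) ^ 7 * tht ν n r =
      K / (ν * n) * (1 - Real.exp (-(ν * (n : ℝ) ^ 8) * T)) := by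
    unfold tht
    rw [ith_int K (ν * (n : ℝ) ^ 8) ((n : ℝ) ^ 7) T hc.ne']
    congr 1
    field_simp
  have h0 : 0 < Real.exp (-(ν * (n : ℝ) ^ 8) * T) := Real.exp_pos _
  have h1 : Real.exp (-(ν * (n : ℝ) ^ 8) * T) ≤ 1 := by
    rw [Real.exp_le_one_iff]
    nlinarith [mul_nonneg hc.le hT]
  have hq : 0 ≤ K / (ν * n) := by positivity
  have hA : 0 ≤ ∫ r in (0 : ℝ)..T, K * (n : ℝ) ^ 7 * tht ν n r := by
    rw [e]
    exact mul_nonneg hq (by linarith)
  have hB : ∫ r in (0 : ℝ)..T, K * (n : ℝ) ^ 7 * tht ν n r ≤ K / (ν * n) := by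
    rw [e]
    nlinarith
  refine ⟨hA, hB, fun hKn => ?_⟩
  have hq1 : K / (ν * n) ≤ 1 := by
    rw [div_le_one (by positivity)]
    exact hKn
  set x := ∫ r in (0 : ℝ)..T, K * (n : ℝ) ^ 7 * tht ν n r
  have h2 := Real.abs_exp_sub_one_sub_id_le (x := x) (by rw [abs_of_nonneg hA]; linarith)
  have h3 := (abs_le.1 h2).2
  have h4 : 2 * K / (ν * n) = 2 * (K / (ν * n)) := by ring
  rw [h4]
  nlinarith

end HB
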